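import Mathlib
import Pool.Agent.Y56.AB.Sides
import Pool.Agent.Y56.AB.Arch

/-!
# Abelian amalgamation bases for the class of lattice-ordered groups are subgroups of the reals

Every abelian ℓ-group which is an amalgamation base for the class of all ℓ-groups is totally
ordered and archimedean, hence isomorphic to a subgroup of the real numbers. In particular neither
`ℤ + ℤ` (Q1) nor `ℤ ×ₗₑₓ ℤ` (Q2) is an amalgamation base.
-/

namespace Pool.Agent.Results.MP_d8fac8_al.AbelianBases

open Pool.Agent.Y56.AB Pool.Agent.Helper539.LG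

universe u v

/-- An ℓ-embedding: an injective group homomorphism preserving meets and joins. -/
def IsLEmbedding {A B : Type*} [Group A] [Lattice A] [Group B] [Lattice B] (f : A →* B) : Prop :=
  Function.Injective f ∧ (∀ x y, f (x ⊓ y) = f x ⊓ f y) ∧ (∀ x y, f (x ⊔ y) = f x ⊔ f y)

/-- `A` is an amalgamation base for the class of all ℓ-groups: any two ℓ-embeddings of `A` into
ℓ-groups `B` and `C` can be completed to a commutative square of ℓ-embeddings into an ℓ-group
`D` (in the universe `v`). -/
def IsAmalgamationBase (A : Type u) [Group A] [Lattice A] : Prop :=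
  ∀ (B : Type u) [Group B] [Lattice B] [MulLeftMono B] [MulRightMono B]
    (C : Type u) [Group C] [Lattice C] [MulLeftMono C] [MulRightMono C]
    (f : A →* B) (g : A →* C), IsLEmbedding f → IsLEmbedding g →
    ∃ (D : Type v) (_ : Group D) (_ : Lattice D) (_ : MulLeftMono D) (_ : MulRightMono D)
      (f' : B →* D) (g' : C →* D),
      IsLEmbedding f' ∧ IsLEmbedding g' ∧ f'.comp f = g'.comp g

theorem not_base {A : Type u} [Group A] [Lattice A] [MulLeftMono A] [MulRightMono A] {a b : A}
    (ha : 1 < a) (hb : 1 < b) (h : ∀ g, a ⊓ (g⁻¹ * b * g) = 1) :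
    ¬ IsAmalgamationBase.{u, v} A := by
  intro hA
  obtain ⟨B, i1, i2, i3, i4, C, j1, j2, j3, j4, f, g, hf, hg, hno⟩ := no_base.{u, v} ha hb h
  obtain ⟨D, k1, k2, k3, k4, f', g', hf', hg', e⟩ := hA B C f g hf hg
  exact hno D f' g' hf' hg' e

theorem not_base_lex {A : Type u} [CommGroup A] [LinearOrder A] [IsOrderedMonoid A] {a b : A}
    (hb : 1 < b) (h : ∀ n : ℕ, b ^ n < a) : ¬ IsAmalgamationBase.{u, v} A := by
  intro hA
  obtain ⟨B, i1, i2, i3, i4, C, j1, j2, j3, j4, f, g, hf, hg, hno⟩ := no_base_lex.{u, v} hb h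
  obtain ⟨D, k1, k2, k3, k4, f', g', hf', hg', e⟩ := hA B C f g hf hg
  exact hno D f' g' hf' hg' e

theorem total_of_base {A : Type u} [CommGroup A] [Lattice A] [MulLeftMono A]
    (hbase : IsAmalgamationBase.{u, v} A) (x y : A) : x ≤ y ∨ y ≤ x := by
  have : MulRightMono A := ⟨fun g x y h => by
    show x * g ≤ y * g
    rw [mul_comm x g, mul_comm y g]
    exact mul_le_mul_right h g⟩
  by_contra hcon
  push Not at hcon
  have h0 := pos_inf_pos (x * y⁻¹)
  refine not_base (a := x * y⁻¹ ⊔ 1) (b := (x * y⁻¹)⁻¹ ⊔ 1) ?_ ?_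
    (fun g => by rw [mul_comm g⁻¹, inv_mul_cancel_right, h0]) hbase
  · refine lt_of_le_of_ne le_sup_right ?_
    intro e
    apply hcon.1
    have h1 : x * y⁻¹ ≤ 1 := by
      rw [e]; exact le_sup_left
    have h2 := mulRR h1 y
    rwa [inv_mul_cancel_right, one_mul] at h2
  · refine lt_of_le_of_ne le_sup_right ?_
    intro e
    apply hcon.2
    have h1 : (x * y⁻¹)⁻¹ ≤ 1 := by
      rw [e]; exact le_sup_left
    rw [mul_inv_rev, inv_inv] at h1
    have h2 := mulRR h1 x
    rwa [inv_mul_cancel_right, one_mul] at h2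

theorem real_of_base {A : Type u} [CommGroup A] [LinearOrder A] [IsOrderedMonoid A]
    (hbase : IsAmalgamationBase.{u, v} A) :
    ∃ f : A →* Multiplicative ℝ, Function.Injective f ∧ ∀ x y, x ≤ y ↔ f x ≤ f y := by
  have harch : ∀ (a : A) {b : A}, 1 < b → ∃ n : ℕ, a ≤ b ^ n := by
    intro a b hb
    by_contra hcon
    push Not at hcon
    exact not_base_lex hb hcon hbase
  have : MulArchimedean A := ⟨harch⟩
  obtain ⟨f, hf⟩ := Archimedean.exists_orderAddMonoidHom_real_injective (Additive A)
  refine ⟨{ toFun := fun x => Multiplicative.ofAdd (f (Additive.ofMul x))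
            map_one' := by rw [ofMul_one, map_zero]; rfl
            map_mul' := fun x y => by rw [ofMul_mul, map_add]; rfl }, ?_, ?_⟩
  · intro x y h
    have h1 : f (Additive.ofMul x) = f (Additive.ofMul y) := h
    exact hf h1
  · intro x y
    show x ≤ y ↔ f (Additive.ofMul x) ≤ f (Additive.ofMul y)
    have hm : StrictMono f := f.monotone'.strictMono_of_injective hf
    exact (hm.le_iff_le (a := Additive.ofMul x) (b := Additive.ofMul y)).symm

/-- The cardinal sum of two copies of the integers, written multiplicatively: the lattice order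
is componentwise. -/
abbrev CardSum : Type := Multiplicative ℤ × Multiplicative ℤ

/-- The lexicographic product of two copies of the integers, written multiplicatively. -/
abbrev LexProd : Type := Multiplicative (ℤ ×ₗ ℤ)

/-- **Abelian amalgamation bases are subgroups of the reals.**
(A) Every abelian ℓ-group `A` which is an amalgamation base for the class of all ℓ-groups is
totally ordered and isomorphic, as an ordered group, to a subgroup of `ℝ`.
(B) `ℤ + ℤ` is not an amalgamation base (Q1).
(C) `ℤ ×ₗₑₓ ℤ` is not an amalgamation base (Q2). -/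
theorem result :
    (∀ (A : Type u) [CommGroup A] [Lattice A] [MulLeftMono A], IsAmalgamationBase.{u, v} A →
      (∀ x y : A, x ≤ y ∨ y ≤ x) ∧
        ∃ f : A →* Multiplicative ℝ, Function.Injective f ∧ ∀ x y, x ≤ y ↔ f x ≤ f y) ∧
    ¬ IsAmalgamationBase.{0, v} CardSum ∧
    ¬ IsAmalgamationBase.{0, v} LexProd := by
  refine ⟨?_, ?_, ?_⟩
  · intro A _ _ _ hbase
    classical
    have htot := total_of_base hbase
    refine ⟨htot, ?_⟩
    have : Std.Total (α := A) (· ≤ ·) := ⟨htot⟩
    letI : LinearOrder A := Lattice.toLinearOrder A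
    have : IsOrderedMonoid A := ⟨fun a b h c => by
      rw [mul_comm a c, mul_comm b c]
      exact mul_le_mul_right h c, fun a b h c => mul_le_mul_right h c⟩
    exact real_of_base hbase
  · intro h
    rcases total_of_base h (Multiplicative.ofAdd 1, 1) (1, Multiplicative.ofAdd 1) with h1 | h1
    · have h2 : (1 : ℤ) ≤ 0 := h1.1
      norm_num at h2
    · have h2 : (1 : ℤ) ≤ 0 := h1.2
      norm_num at h2
  · have hb : (1 : LexProd) < Multiplicative.ofAdd (toLex (0, 1)) := by
      show (0 : ℤ ×ₗ ℤ) < toLex (0, 1)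
      rw [Prod.Lex.lt_iff]
      exact Or.inr ⟨rfl, by show (0 : ℤ) < 1; norm_num⟩
    refine not_base_lex (a := Multiplicative.ofAdd (toLex (1, 0))) hb ?_
    intro n
    show n • (toLex (0, 1) : ℤ ×ₗ ℤ) < toLex (1, 0)
    rw [Prod.Lex.lt_iff]
    left
    have : (ofLex (n • (toLex (0, 1) : ℤ ×ₗ ℤ))).1 = n • (0 : ℤ) := rfl
    rw [this, smul_zero]
    show (0 : ℤ) < 1
    norm_num

end Pool.Agent.Results.MP_d8fac8_al.AbelianBases
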