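import Pool.Agent.Y42.AB.Gen
import Pool.Agent.Y56.AB.Sides

/-!
# Amalgamation bases of lattice-ordered groups: only archimedean ones in the abelian case

A lexicographic extension is never an amalgamation base for the class of all ℓ-groups. Hence an
abelian amalgamation base is totally ordered and archimedean, that is, it is isomorphic to a
subgroup of the additive group of the reals; and a representable amalgamation base is a totally
ordered group without proper nontrivial convex normal subgroups.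
Cardinal products of two nontrivial ℓ-groups are not amalgamation bases either. In particular
neither the cardinal sum nor the lexicographic product of two copies of the integers is one.

The parts `Pool.Agent.Y457.AB`, `Pool.Agent.Y409.AB`, `Pool.Agent.Y908.AB` and
`Pool.Agent.Y56.AB` (elements disjoint from all conjugates) were proved by helper457, helper409,
helper908 and helper56.
-/

namespace Pool.Agent.Results.MP_d8fac8_al.ArchimedeanBases

open Pool.Agent.Y42.AB Pool.Agent.Helper539.LG

universe u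

/-- An ℓ-embedding: an injective group homomorphism preserving meets and joins. -/
def IsLEmbedding {A B : Type*} [Group A] [Lattice A] [Group B] [Lattice B] (f : A →* B) : Prop :=
  Function.Injective f ∧ (∀ x y, f (x ⊓ y) = f x ⊓ f y) ∧ (∀ x y, f (x ⊔ y) = f x ⊔ f y)

/-- `A` is an amalgamation base for the class of all ℓ-groups: any two ℓ-groups containing `A`
can be amalgamated over `A` in some ℓ-group `D` (in an arbitrary universe). -/
def AmalgamationBase (A : Type) [Group A] [Lattice A] : Prop :=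
  ∀ (B : Type) [Group B] [Lattice B] [MulLeftMono B] [MulRightMono B]
    (C : Type) [Group C] [Lattice C] [MulLeftMono C] [MulRightMono C]
    (f : A →* B) (g : A →* C), IsLEmbedding f → IsLEmbedding g →
    ∃ (D : Type u) (_ : Group D) (_ : Lattice D) (_ : MulLeftMono D) (_ : MulRightMono D)
      (f' : B →* D) (g' : C →* D),
      IsLEmbedding f' ∧ IsLEmbedding g' ∧ f'.comp f = g'.comp g

theorem not_base {A : Type} [Group A] [Lattice A] (h : NoBase.{u} A) :
    ¬ AmalgamationBase.{u} A := by
  obtain ⟨B, i1, i2, i3, i4, C, j1, j2, j3, j4, f, g, hf, hg, hh⟩ := h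
  intro hb
  obtain ⟨D, k1, k2, k3, k4, f', g', hf', hg', e⟩ := hb B C f g hf hg
  exact hh D f' g' hf' hg' e

theorem total_of_base {A : Type} [Group A] [Lattice A] [MulLeftMono A] [MulRightMono A]
    (hrep : ∀ x y g : A, x ⊓ y = 1 → x ⊓ (g⁻¹ * y * g) = 1) (hbase : AmalgamationBase.{u} A) :
    ∀ x y : A, x ≤ y ∨ y ≤ x := by
  intro x y
  by_contra hcon
  push Not at hcon
  have h0 := pos_inf_pos (x * y⁻¹)
  refine not_base.{u} (A := A) (Pool.Agent.Y56.AB.no_base.{0, u} (a := x * y⁻¹ ⊔ 1)
    (b := (x * y⁻¹)⁻¹ ⊔ 1) ?_ ?_ (fun g => hrep _ _ g h0)) hbase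
  · refine lt_of_le_of_ne le_sup_right ?_
    intro e
    apply hcon.1
    have h1 : x * y⁻¹ ≤ 1 := by
      rw [e]; exact le_sup_left
    have h2 := mulRR h1 y
    rwa [inv_mul_cancel_right, one_mul] at h2
  · refine lt_of_le_of_ne le_sup_right ?_
    intro e
    apply hcon.2
    have h1 : (x * y⁻¹)⁻¹ ≤ 1 := by
      rw [e]; exact le_sup_left
    rw [mul_inv_rev, inv_inv] at h1
    have h2 := mulRR h1 x
    rwa [inv_mul_cancel_right, one_mul] at h2

theorem sep_of_total {A : Type} [Group A] [Lattice A]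
    (ht : ∀ x y : A, x ≤ y ∨ y ≤ x) {V : Subgroup A}
    (hc : ∀ x ∈ V, ∀ y ∈ V, ∀ z, x ≤ z → z ≤ y → z ∈ V) :
    ∀ x, x ∉ V → (∀ v ∈ V, v < x) ∨ (∀ v ∈ V, x < v) := by
  intro x hx
  rcases ht 1 x with h | h
  · left
    intro v hv
    rcases ht v x with h1 | h1
    · exact lt_of_le_of_ne h1 (fun e => hx (e ▸ hv))
    · exact absurd (hc 1 V.one_mem v hv x h h1) hx
  · right
    intro v hv
    rcases ht x v with h1 | h1
    · exact lt_of_le_of_ne h1 (fun e => hx (e ▸ hv))
    · exact absurd (hc v hv 1 V.one_mem x h1 h) hx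

/-- **Amalgamation bases of the class of all ℓ-groups.**
(1) No ℓ-group with a proper nontrivial normal subgroup `V` such that every element outside `V`
is above or below all elements of `V` is an amalgamation base.
(2) An abelian amalgamation base is totally ordered and archimedean.
(3) Let `A` be an ℓ-group in which `x ⊓ y = 1` implies `x ⊓ g⁻¹ y g = 1` (for example any
representable ℓ-group). If `A` is an amalgamation base then `A` is totally ordered, and its
only convex normal subgroups are `A` and the trivial one.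
(4) No cardinal product of two nontrivial ℓ-groups is an amalgamation base.
(5) The cardinal sum and the lexicographic product of two copies of the integers are not
amalgamation bases. -/
theorem result :
    (∀ (A : Type) [Group A] [Lattice A] [MulLeftMono A] [MulRightMono A]
      (V : Subgroup A) [V.Normal], V ≠ ⊥ → V ≠ ⊤ →
      (∀ x, x ∉ V → (∀ v ∈ V, v < x) ∨ (∀ v ∈ V, x < v)) → ¬ AmalgamationBase.{u} A) ∧
    (∀ (A : Type) [CommGroup A] [Lattice A] [MulLeftMono A],
      AmalgamationBase.{u} A →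
      (∀ x y : A, x ≤ y ∨ y ≤ x) ∧ ∀ x y : A, 1 < y → ∃ n : ℕ, x ≤ y ^ n) ∧
    (∀ (A : Type) [Group A] [Lattice A] [MulLeftMono A] [MulRightMono A],
      (∀ x y g : A, x ⊓ y = 1 → x ⊓ (g⁻¹ * y * g) = 1) → AmalgamationBase.{u} A →
      (∀ x y : A, x ≤ y ∨ y ≤ x) ∧ ∀ V : Subgroup A, V.Normal →
        (∀ x ∈ V, ∀ y ∈ V, ∀ z, x ≤ z → z ≤ y → z ∈ V) → V = ⊥ ∨ V = ⊤) ∧
    (∀ (A₁ A₂ : Type) [Group A₁] [Lattice A₁] [MulLeftMono A₁] [MulRightMono A₁]
      [Group A₂] [Lattice A₂] [MulLeftMono A₂] [MulRightMono A₂] [Nontrivial A₁] [Nontrivial A₂],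
      ¬ AmalgamationBase.{u} (A₁ × A₂)) ∧
    ¬ AmalgamationBase.{u} (Multiplicative ℤ × Multiplicative ℤ) ∧
    ¬ AmalgamationBase.{u} (Multiplicative (ℤ ×ₗ ℤ)) := by
  have h3 : ∀ (A : Type) [Group A] [Lattice A] [MulLeftMono A] [MulRightMono A],
      (∀ x y g : A, x ⊓ y = 1 → x ⊓ (g⁻¹ * y * g) = 1) → AmalgamationBase.{u} A →
      (∀ x y : A, x ≤ y ∨ y ≤ x) ∧ ∀ V : Subgroup A, V.Normal →
        (∀ x ∈ V, ∀ y ∈ V, ∀ z, x ≤ z → z ≤ y → z ∈ V) → V = ⊥ ∨ V = ⊤ := by
    intro A _ _ _ _ hrep hbase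
    have ht := total_of_base.{u} hrep hbase
    refine ⟨ht, ?_⟩
    intro V hV hc
    by_contra hcon
    push Not at hcon
    exact not_base.{u} (gen_noBase (V := V) hcon.1 hcon.2 (sep_of_total ht hc)) hbase
  refine ⟨?_, ?_, h3, ?_, ?_, ?_⟩
  · intro A _ _ _ _ V _ hV hV' hsep
    exact not_base (gen_noBase (V := V) hV hV' hsep)
  · intro A _ _ _ hbase
    have hR : MulRightMono A := inferInstance
    obtain ⟨ht, hV⟩ := h3 A (by
      intro x y g h
      rwa [mul_comm g⁻¹ y, inv_mul_cancel_right]) hbase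
    refine ⟨ht, ?_⟩
    intro x y hy
    let V : Subgroup A :=
      { carrier := {z | ∃ n : ℕ, z ≤ y ^ n ∧ z⁻¹ ≤ y ^ n}
        one_mem' := ⟨0, by simp⟩
        mul_mem' := by
          rintro a b ⟨m, h1, h2⟩ ⟨n, h3, h4⟩
          refine ⟨m + n, ?_, ?_⟩
          · rw [pow_add]; exact mul_le_mul' h1 h3
          · rw [pow_add, mul_inv]; exact mul_le_mul' h2 h4
        inv_mem' := by
          rintro a ⟨m, h1, h2⟩
          exact ⟨m, h2, by rwa [inv_inv]⟩ }
    have hyV : y ∈ V := ⟨1, by rw [pow_one], by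
      rw [pow_one]; exact (inv_le_one'.mpr hy.le).trans hy.le⟩
    have hmono : ∀ m n : ℕ, m ≤ n → y ^ m ≤ y ^ n := fun m n h => pow_le_pow_right' hy.le h
    rcases hV V inferInstance (by
      rintro a ⟨m, h1, h2⟩ b ⟨n, h3, h4⟩ z haz hzb
      refine ⟨m + n, ?_, ?_⟩
      · exact (hzb.trans h3).trans (hmono _ _ (by omega))
      · exact ((inv_le_inv_iff.mpr haz).trans h2).trans (hmono _ _ (by omega))) with h | h
    · rw [h, Subgroup.mem_bot] at hyV
      exact absurd hyV hy.ne'
    · have hx : x ∈ V := by rw [h]; exact Subgroup.mem_top _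
      obtain ⟨n, h1, -⟩ := hx
      exact ⟨n, h1⟩
  · intro A₁ A₂ _ _ _ _ _ _ _ _ _ _
    exact not_base (prod_noBase A₁ A₂)
  · exact not_base (prod_noBase _ _)
  · exact not_base lexPlane_noBase

end Pool.Agent.Results.MP_d8fac8_al.ArchimedeanBases
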