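import Mathlib
import Pool.Agent.Y56.AB.Sides

/-!
# Amalgamation bases for the class of lattice-ordered groups are finitely subdirectly irreducible

For an ℓ-group `A` with two nontrivial ℓ-ideals whose intersection is trivial there are ℓ-groups
`B`, `C` containing `A` which have no common ℓ-overgroup in which the two copies of `A` agree.
Hence no cardinal sum of two nontrivial ℓ-groups is an amalgamation base, and every abelian (more
generally every representable) amalgamation base is totally ordered.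
-/

namespace Pool.Agent.Results.MP_d8fac8_al.DisjointIdeals

open Pool.Agent.Y56.AB Pool.Agent.Helper539.LG

universe u v

/-- An ℓ-embedding: an injective group homomorphism preserving meets and joins. -/
def IsLEmbedding {A B : Type*} [Group A] [Lattice A] [Group B] [Lattice B] (f : A →* B) : Prop :=
  Function.Injective f ∧ (∀ x y, f (x ⊓ y) = f x ⊓ f y) ∧ (∀ x y, f (x ⊔ y) = f x ⊔ f y)

/-- `A` is an amalgamation base for the class of all ℓ-groups: any two ℓ-embeddings of `A` into
ℓ-groups `B` and `C` can be completed to a commutative square of ℓ-embeddings into an ℓ-group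
`D` (in the universe `v`). -/
def IsAmalgamationBase (A : Type u) [Group A] [Lattice A] : Prop :=
  ∀ (B : Type u) [Group B] [Lattice B] [MulLeftMono B] [MulRightMono B]
    (C : Type u) [Group C] [Lattice C] [MulLeftMono C] [MulRightMono C]
    (f : A →* B) (g : A →* C), IsLEmbedding f → IsLEmbedding g →
    ∃ (D : Type v) (_ : Group D) (_ : Lattice D) (_ : MulLeftMono D) (_ : MulRightMono D)
      (f' : B →* D) (g' : C →* D),
      IsLEmbedding f' ∧ IsLEmbedding g' ∧ f'.comp f = g'.comp g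

/-- An ℓ-ideal: a normal subgroup which is a sublattice and convex. -/
def IsLIdeal {A : Type*} [Group A] [Lattice A] (N : Subgroup A) : Prop :=
  N.Normal ∧ (∀ x ∈ N, ∀ y ∈ N, x ⊔ y ∈ N) ∧ ∀ x ∈ N, ∀ y ∈ N, ∀ z, x ≤ z → z ≤ y → z ∈ N

theorem not_base {A : Type u} [Group A] [Lattice A] [MulLeftMono A] [MulRightMono A] {a b : A}
    (ha : 1 < a) (hb : 1 < b) (h : ∀ g, a ⊓ (g⁻¹ * b * g) = 1) :
    ¬ IsAmalgamationBase.{u, v} A := by
  intro hA
  obtain ⟨B, i1, i2, i3, i4, C, j1, j2, j3, j4, f, g, hf, hg, hno⟩ := no_base.{u, v} ha hb h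
  obtain ⟨D, k1, k2, k3, k4, f', g', hf', hg', e⟩ := hA B C f g hf hg
  exact hno D f' g' hf' hg' e

theorem exists_pos {A : Type*} [Group A] [Lattice A] [MulLeftMono A] [MulRightMono A]
    {x : A} (hx : x ≠ 1) : 1 < x ⊔ 1 ∨ 1 < x⁻¹ ⊔ 1 := by
  by_contra hcon
  push Not at hcon
  have h1 : x ⊔ 1 = 1 := by
    by_contra h
    exact hcon.1 (lt_of_le_of_ne le_sup_right (Ne.symm h))
  have h2 : x⁻¹ ⊔ 1 = 1 := by
    by_contra h
    exact hcon.2 (lt_of_le_of_ne le_sup_right (Ne.symm h))
  apply hx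
  apply le_antisymm
  · rw [← h1]; exact le_sup_left
  · have h3 : x⁻¹ ≤ 1 := by
      rw [← h2]; exact le_sup_left
    exact inv_le_one'.mp h3

theorem exists_pos_mem {A : Type*} [Group A] [Lattice A] [MulLeftMono A] [MulRightMono A]
    {N : Subgroup A} (hN : IsLIdeal N) (hne : N ≠ ⊥) : ∃ a ∈ N, 1 < a := by
  obtain ⟨x, hx, hx1⟩ := N.bot_or_exists_ne_one.resolve_left hne
  rcases exists_pos hx1 with h | h
  · exact ⟨_, hN.2.1 x hx 1 N.one_mem, h⟩
  · exact ⟨_, hN.2.1 x⁻¹ (N.inv_mem hx) 1 N.one_mem, h⟩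

theorem exists_one_lt {A : Type*} [Group A] [Lattice A] [MulLeftMono A] [MulRightMono A]
    [Nontrivial A] : ∃ a : A, 1 < a := by
  obtain ⟨x, hx⟩ := exists_ne (1 : A)
  rcases exists_pos hx with h | h
  · exact ⟨_, h⟩
  · exact ⟨_, h⟩

/-- The cardinal sum of two copies of the integers, written multiplicatively: the lattice order
is componentwise. -/
abbrev CardSum : Type := Multiplicative ℤ × Multiplicative ℤ

/-- **Amalgamation bases for the class of all ℓ-groups.**
(A) If an ℓ-group `A` has two nontrivial ℓ-ideals with trivial intersection then `A` is not an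
amalgamation base.
(B) The cardinal sum of two nontrivial ℓ-groups is not an amalgamation base.
(C) Let `A` be an ℓ-group in which `x ⊓ y = 1` implies `x ⊓ g⁻¹ y g = 1` (for example an abelian
ℓ-group, or any subdirect product of totally ordered groups). If `A` is an amalgamation base
then `A` is totally ordered.
(D) `ℤ + ℤ` is not an amalgamation base. -/
theorem result :
    (∀ (A : Type u) [Group A] [Lattice A] [MulLeftMono A] [MulRightMono A] (M N : Subgroup A),
      IsLIdeal M → IsLIdeal N → M ≠ ⊥ → N ≠ ⊥ → M ⊓ N = ⊥ → ¬ IsAmalgamationBase.{u, v} A) ∧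
    (∀ (A B : Type u) [Group A] [Lattice A] [MulLeftMono A] [MulRightMono A]
      [Group B] [Lattice B] [MulLeftMono B] [MulRightMono B] [Nontrivial A] [Nontrivial B],
      ¬ IsAmalgamationBase.{u, v} (A × B)) ∧
    (∀ (A : Type u) [Group A] [Lattice A] [MulLeftMono A] [MulRightMono A],
      (∀ x y g : A, x ⊓ y = 1 → x ⊓ (g⁻¹ * y * g) = 1) → IsAmalgamationBase.{u, v} A →
      ∀ x y : A, x ≤ y ∨ y ≤ x) ∧
    (∀ (A : Type u) [CommGroup A] [Lattice A] [MulLeftMono A],
      IsAmalgamationBase.{u, v} A → ∀ x y : A, x ≤ y ∨ y ≤ x) ∧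
    ¬ IsAmalgamationBase.{0, v} CardSum := by
  have hA : ∀ (A : Type u) [Group A] [Lattice A] [MulLeftMono A] [MulRightMono A]
      (M N : Subgroup A), IsLIdeal M → IsLIdeal N → M ≠ ⊥ → N ≠ ⊥ → M ⊓ N = ⊥ →
      ¬ IsAmalgamationBase.{u, v} A := by
    intro A _ _ _ _ M N hM hN hM1 hN1 hMN
    obtain ⟨a, haM, ha⟩ := exists_pos_mem hM hM1
    obtain ⟨b, hbN, hb⟩ := exists_pos_mem hN hN1
    refine not_base ha hb ?_
    intro g
    have h1 : g⁻¹ * b * g ∈ N := by
      have := hN.1.conj_mem b hbN g⁻¹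
      rwa [inv_inv] at this
    have h2 : 1 ≤ g⁻¹ * b * g := by
      have := mulRR (mulLL hb.le g⁻¹) g
      rwa [mul_one, inv_mul_cancel] at this
    have h3 : a ⊓ (g⁻¹ * b * g) ∈ M ⊓ N :=
      ⟨hM.2.2 1 M.one_mem a haM _ (le_inf ha.le h2) inf_le_left,
        hN.2.2 1 N.one_mem _ h1 _ (le_inf ha.le h2) inf_le_right⟩
    rw [hMN] at h3
    exact h3
  have hB : ∀ (A B : Type u) [Group A] [Lattice A] [MulLeftMono A] [MulRightMono A]
      [Group B] [Lattice B] [MulLeftMono B] [MulRightMono B] [Nontrivial A] [Nontrivial B],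
      ¬ IsAmalgamationBase.{u, v} (A × B) := by
    intro A B _ _ _ _ _ _ _ _ _ _
    obtain ⟨a, ha⟩ := exists_one_lt (A := A)
    obtain ⟨b, hb⟩ := exists_one_lt (A := B)
    refine not_base (A := A × B) (a := (a, 1)) (b := (1, b)) ?_ ?_ ?_
    · exact Prod.mk_lt_mk_iff_left.mpr ha
    · exact Prod.mk_lt_mk_iff_right.mpr hb
    · rintro ⟨g, h⟩
      apply Prod.ext
      · show a ⊓ (g⁻¹ * 1 * g) = 1
        rw [mul_one, inv_mul_cancel]
        exact inf_eq_right.mpr ha.le
      · show 1 ⊓ (h⁻¹ * b * h) = 1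
        have h2 : 1 ≤ h⁻¹ * b * h := by
          have := mulRR (mulLL hb.le h⁻¹) h
          rwa [mul_one, inv_mul_cancel] at this
        exact inf_eq_left.mpr h2
  have hC : ∀ (A : Type u) [Group A] [Lattice A] [MulLeftMono A] [MulRightMono A],
      (∀ x y g : A, x ⊓ y = 1 → x ⊓ (g⁻¹ * y * g) = 1) → IsAmalgamationBase.{u, v} A →
      ∀ x y : A, x ≤ y ∨ y ≤ x := by
    intro A _ _ _ _ hrep hbase x y
    by_contra hcon
    push Not at hcon
    have h0 := pos_inf_pos (x * y⁻¹)
    refine not_base (a := x * y⁻¹ ⊔ 1) (b := (x * y⁻¹)⁻¹ ⊔ 1) ?_ ?_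
      (fun g => hrep _ _ g h0) hbase
    · refine lt_of_le_of_ne le_sup_right ?_
      intro e
      apply hcon.1
      have h1 : x * y⁻¹ ≤ 1 := by
        rw [e]; exact le_sup_left
      have h2 := mulRR h1 y
      rwa [inv_mul_cancel_right, one_mul] at h2
    · refine lt_of_le_of_ne le_sup_right ?_
      intro e
      apply hcon.2
      have h1 : (x * y⁻¹)⁻¹ ≤ 1 := by
        rw [e]; exact le_sup_left
      rw [mul_inv_rev, inv_inv] at h1
      have h2 := mulRR h1 x
      rwa [inv_mul_cancel_right, one_mul] at h2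
  refine ⟨hA, hB, hC, ?_, ?_⟩
  · intro A _ _ _ hbase
    have : MulRightMono A := ⟨fun g x y h => by
      show x * g ≤ y * g
      rw [mul_comm x g, mul_comm y g]
      exact mul_le_mul_right h g⟩
    refine hC A ?_ hbase
    intro x y g h
    rwa [mul_comm g⁻¹ y, inv_mul_cancel_right]
  · have h1 : (1 : Multiplicative ℤ) < Multiplicative.ofAdd 1 := by
      show (0 : ℤ) < 1
      norm_num
    refine not_base (A := CardSum) (a := (Multiplicative.ofAdd 1, 1))
      (b := (1, Multiplicative.ofAdd 1)) ?_ ?_ ?_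
    · exact Prod.mk_lt_mk_iff_left.mpr h1
    · exact Prod.mk_lt_mk_iff_right.mpr h1
    · intro g
      rw [mul_comm g⁻¹, inv_mul_cancel_right]
      apply Prod.ext
      · exact inf_eq_right.mpr h1.le
      · exact inf_eq_left.mpr h1.le

end Pool.Agent.Results.MP_d8fac8_al.DisjointIdeals
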